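import Pool.Agent.Helper16.WM.Stm

/-! # The supercritical integrals are finite -/

set_option autoImplicit false

namespace Pool.Agent.Helper22.WM

open MvPolynomial MeasureTheory Filter Topology Pool.Agent.Helper16.WM Set

theorem eval_le {N : ℕ} (w : Fin N → ℕ) (a : ℕ) (f : MvPolynomial (Fin N) ℝ)
    (hf : ∀ m ∈ f.support, a ≤ wt w m) (x : Fin N → ℝ) (ρ : ℝ) (h0 : 0 ≤ ρ) (h1 : ρ ≤ 1)
    (hx : ∀ i, |x i| ≤ ρ ^ w i) : |eval x f| ≤ (∑ m ∈ f.support, |f.coeff m|) * ρ ^ a := by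
  rw [MvPolynomial.eval_eq', Finset.sum_mul]
  refine (Finset.abs_sum_le_sum_abs _ _).trans (Finset.sum_le_sum fun m hm => ?_)
  rw [abs_mul]
  refine mul_le_mul_of_nonneg_left ?_ (abs_nonneg _)
  rw [Finset.abs_prod]
  calc ∏ i, |x i ^ m i| ≤ ∏ i, ρ ^ (w i * m i) := by
        refine Finset.prod_le_prod (fun _ _ => abs_nonneg _) fun i _ => ?_
        rw [abs_pow, pow_mul]
        exact pow_le_pow_left₀ (abs_nonneg _) (hx i) _
    _ = ρ ^ wt w m := by rw [Finset.prod_pow_eq_pow_sum]; rfl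
    _ ≤ ρ ^ a := pow_le_pow_of_le_one h0 h1 (hf m hm)

/-- the function `|x| ^ q` on `[-1, 1]` is integrable -/
theorem int_one (q : ℝ) (hq : -1 < q) :
    Integrable (fun x : ℝ => (Icc (-1 : ℝ) 1).indicator (fun x => |x| ^ q) x) := by
  rw [integrable_indicator_iff measurableSet_Icc]
  have h1 : IntervalIntegrable (fun x : ℝ => |x| ^ q) volume 0 1 := by
    have := intervalIntegral.intervalIntegrable_rpow' (a := 0) (b := 1) hq
    refine this.congr ?_
    intro x hx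
    rw [uIoc_of_le zero_le_one] at hx
    simp only
    rw [abs_of_pos hx.1]
  have h2 : IntervalIntegrable (fun x : ℝ => |x| ^ q) volume (-1) 0 := by
    have := (IntervalIntegrable.iff_comp_neg (f := fun x : ℝ => |x| ^ q) (a := 0) (b := 1)).1 h1
    simp only [abs_neg, neg_zero] at this
    exact this.symm
  have h3 := h2.trans h1
  rw [intervalIntegrable_iff_integrableOn_Icc_of_le (by norm_num)] at h3
  exact h3

/-- the dominating function -/
theorem int_prod (N : ℕ) (q : ℝ) (hq : -1 < q) :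
    Integrable (fun x : Fin N → ℝ =>
      ∏ i, (Icc (-1 : ℝ) 1).indicator (fun x => |x| ^ q) (x i)) :=
  Integrable.fintype_prod (f := fun _ : Fin N => (Icc (-1 : ℝ) 1).indicator (fun x => |x| ^ q))
    (fun _ => int_one q hq)

theorem max_idx {N : ℕ} (w : Fin N → ℕ) (hw : ∃ i, 0 < w i) (x : Fin N → ℝ)
    (hx0 : ∀ i, x i ≠ 0) (hx1 : ∀ i, |x i| ≤ 1) :
    ∃ (i : Fin N) (ρ : ℝ), 0 < w i ∧ 0 < ρ ∧ ρ ≤ 1 ∧ |x i| = ρ ^ w i ∧ ∀ j, |x j| ≤ ρ ^ w j := by
  classical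
  obtain ⟨i₀, hi₀⟩ := hw
  obtain ⟨i, hi, hmax⟩ := Finset.exists_max_image (Finset.univ.filter fun i => 0 < w i)
    (fun i => |x i| ^ ((w i : ℝ)⁻¹)) ⟨i₀, by simp [hi₀]⟩
  have hwi : 0 < w i := by simpa using hi
  refine ⟨i, |x i| ^ ((w i : ℝ)⁻¹), hwi, Real.rpow_pos_of_pos (abs_pos.2 (hx0 i)) _, ?_, ?_, ?_⟩
  · exact Real.rpow_le_one (abs_nonneg _) (hx1 i) (by positivity)
  · rw [← Real.rpow_natCast, ← Real.rpow_mul (abs_nonneg _), inv_mul_cancel₀, Real.rpow_one]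
    exact_mod_cast hwi.ne'
  · intro j
    by_cases hj : 0 < w j
    · have h1 := hmax j (by simp [hj])
      have h2 : |x j| = (|x j| ^ ((w j : ℝ)⁻¹)) ^ w j := by
        rw [← Real.rpow_natCast, ← Real.rpow_mul (abs_nonneg _), inv_mul_cancel₀, Real.rpow_one]
        exact_mod_cast hj.ne'
      rw [h2]
      exact pow_le_pow_left₀ (by positivity) h1 _
    · have : w j = 0 := by omega
      rw [this, pow_zero]; exact hx1 j

/-- `ρ ^ e` is bounded by the product -/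
theorem rho_le {N : ℕ} (w : Fin N → ℕ) (x : Fin N → ℝ) (ρ q e : ℝ)
    (hρ : 0 < ρ) (hρ1 : ρ ≤ 1) (hx0 : ∀ i, x i ≠ 0) (hx : ∀ j, |x j| ≤ ρ ^ w j) (hq : q ≤ 0)
    (he : q * ((∑ i, w i : ℕ) : ℝ) ≤ e) : ρ ^ e ≤ ∏ i, |x i| ^ q := by
  calc ρ ^ e ≤ ρ ^ (q * ((∑ i, w i : ℕ) : ℝ)) :=
        Real.rpow_le_rpow_of_exponent_ge hρ hρ1 he
    _ = ∏ i, (ρ ^ w i) ^ q := by
        rw [Real.finsetProd_rpow _ _ (fun i _ => by positivity), Finset.prod_pow_eq_pow_sum,
          ← Real.rpow_natCast, ← Real.rpow_mul hρ.le, mul_comm]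
    _ ≤ ∏ i, |x i| ^ q := by
        refine Finset.prod_le_prod (fun i _ => by positivity) fun i _ => ?_
        exact Real.rpow_le_rpow_of_nonpos (abs_pos.2 (hx0 i)) (hx i) hq

theorem key {N : ℕ} {w : Fin N → ℕ} {a b : ℕ} {A B : MvPolynomial (Fin N) ℝ}
    {Ω : Set (Fin N → ℝ)} (hG : Geo w a b A B Ω) : ∃ r : ℝ, 0 < r ∧ r ≤ 1 ∧
    ∀ (H : MvPolynomial (Fin N) ℝ) (γ : ℕ), HasOrder w γ H → ∀ (k : ℕ) (t : ℝ), 0 ≤ t + k →
    -((∑ i, w i : ℕ) : ℝ) < t * (a + b) + a * k + γ →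
    ∃ K q : ℝ, -1 < q ∧ ∀ x ∈ Ω, ‖x‖ ≤ r → (∀ i, x i ≠ 0) →
      |(|eval x A| ^ (t + k) * |eval x B| ^ t * eval x H)| ≤ K * ∏ i, |x i| ^ q := by
  obtain ⟨C, r, hr, hB⟩ := hG.lowB
  refine ⟨min r 1, by positivity, min_le_right _ _, ?_⟩
  intro H γ hH k t htk hlt
  set W : ℝ := ((∑ i, w i : ℕ) : ℝ) with hW
  have hWpos : 0 < W := by
    obtain ⟨i, hi⟩ := hG.wpos
    have : 0 < ∑ i, w i := lt_of_lt_of_le hi
      (Finset.single_le_sum (f := w) (fun _ _ => Nat.zero_le _) (Finset.mem_univ i))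
    exact Nat.cast_pos.2 this
  set CA : ℝ := ∑ m ∈ A.support, |A.coeff m| with hCA
  set CB : ℝ := ∑ m ∈ B.support, |B.coeff m| with hCB
  set CH : ℝ := ∑ m ∈ H.support, |H.coeff m| with hCH
  have hCA0 : 0 ≤ CA := Finset.sum_nonneg fun _ _ => abs_nonneg _
  have hCB0 : 0 ≤ CB := Finset.sum_nonneg fun _ _ => abs_nonneg _
  have hCH0 : 0 ≤ CH := Finset.sum_nonneg fun _ _ => abs_nonneg _
  set e : ℝ := t * (a + b) + a * k + γ with he
  set q : ℝ := min (e / W) 0 with hq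
  have hq1 : -1 < q := by
    rw [hq, lt_min_iff]
    refine ⟨?_, by norm_num⟩
    rw [lt_div_iff₀ hWpos]; linarith
  have hq0 : q ≤ 0 := min_le_right _ _
  have hqe : q * W ≤ e := by
    have : q ≤ e / W := min_le_left _ _
    rwa [le_div_iff₀ hWpos] at this
  -- the case of a nonnegative or a negative `t`
  have hBt : ∃ D : ℝ, 0 ≤ D ∧ ∀ x ∈ Ω, ‖x‖ ≤ r → ∀ (i : Fin N) (ρ : ℝ), 0 < w i → 0 < ρ → ρ ≤ 1 →
      |x i| = ρ ^ w i → (∀ j, |x j| ≤ ρ ^ w j) → |eval x B| ^ t ≤ D * ρ ^ (t * b) := by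
    rcases le_or_gt 0 t with ht | ht
    · refine ⟨CB ^ t, by positivity, ?_⟩
      intro x hx hxr i ρ hwi hρ hρ1 hxi hxj
      have h1 := eval_le w b B hG.ordB.1 x ρ hρ.le hρ1 hxj
      calc |eval x B| ^ t ≤ (CB * ρ ^ b) ^ t := Real.rpow_le_rpow (abs_nonneg _) h1 ht
        _ = CB ^ t * ρ ^ (t * b) := by
            rw [Real.mul_rpow hCB0 (by positivity), ← Real.rpow_natCast, ← Real.rpow_mul hρ.le,
              mul_comm (b : ℝ) t]
    · set C' : ℝ := max C 1 with hC'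
      have hC'1 : 1 ≤ C' := le_max_right _ _
      have hC'0 : 0 < C' := by linarith
      refine ⟨C' ^ (-t), by positivity, ?_⟩
      intro x hx hxr i ρ hwi hρ hρ1 hxi hxj
      have h1 := hB x hx hxr i
      have hBpos : 0 < |eval x B| := by
        have := hG.ne x hx
        rw [map_mul] at this
        exact abs_pos.2 (right_ne_zero_of_mul this)
      have h2 : ρ ^ b ≤ C' * |eval x B| := by
        have h3 : (ρ ^ b) ^ w i ≤ (C' * |eval x B|) ^ w i := by
          calc (ρ ^ b) ^ w i = |x i| ^ b := by rw [hxi, ← pow_mul, ← pow_mul, mul_comm]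
            _ ≤ C * |eval x B| ^ w i := h1
            _ ≤ C' * |eval x B| ^ w i := by
                refine mul_le_mul_of_nonneg_right (le_max_left _ _) (by positivity)
            _ ≤ C' ^ w i * |eval x B| ^ w i := by
                refine mul_le_mul_of_nonneg_right ?_ (by positivity)
                exact le_self_pow₀ hC'1 hwi.ne'
            _ = (C' * |eval x B|) ^ w i := by rw [mul_pow]
        exact le_of_pow_le_pow_left₀ hwi.ne' (by positivity) h3
      have h4 : ρ ^ b / C' ≤ |eval x B| := by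
        rw [div_le_iff₀ hC'0]; linarith
      calc |eval x B| ^ t ≤ (ρ ^ b / C') ^ t :=
            Real.rpow_le_rpow_of_nonpos (by positivity) h4 ht.le
        _ = C' ^ (-t) * ρ ^ (t * b) := by
            rw [Real.div_rpow (by positivity) hC'0.le, ← Real.rpow_natCast, ← Real.rpow_mul hρ.le,
              Real.rpow_neg hC'0.le, mul_comm (b : ℝ) t]
            field_simp
  obtain ⟨D, hD0, hD⟩ := hBt
  refine ⟨CA ^ (t + k) * D * CH, q, hq1, ?_⟩
  intro x hx hxr hx0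
  have hx1 : ∀ i, |x i| ≤ 1 := fun i =>
    ((Real.norm_eq_abs _ ▸ norm_le_pi_norm x i).trans hxr).trans (min_le_right _ _)
  obtain ⟨i, ρ, hwi, hρ, hρ1, hxi, hxj⟩ := max_idx w hG.wpos x hx0 hx1
  have h1 := hD x hx (hxr.trans (min_le_left _ _)) i ρ hwi hρ hρ1 hxi hxj
  have h2 := eval_le w a A hG.ordA.1 x ρ hρ.le hρ1 hxj
  have h3 := eval_le w γ H hH.1 x ρ hρ.le hρ1 hxj
  have h4 : |eval x A| ^ (t + k) ≤ CA ^ (t + k) * ρ ^ ((t + k) * a) := by
    calc |eval x A| ^ (t + k) ≤ (CA * ρ ^ a) ^ (t + k) :=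
          Real.rpow_le_rpow (abs_nonneg _) h2 htk
      _ = CA ^ (t + k) * ρ ^ ((t + k) * a) := by
          rw [Real.mul_rpow hCA0 (by positivity), ← Real.rpow_natCast, ← Real.rpow_mul hρ.le,
            mul_comm (a : ℝ) (t + k)]
  rw [abs_mul, abs_mul, abs_of_nonneg (Real.rpow_nonneg (abs_nonneg _) _),
    abs_of_nonneg (Real.rpow_nonneg (abs_nonneg _) _)]
  calc |eval x A| ^ (t + k) * |eval x B| ^ t * |eval x H|
      ≤ (CA ^ (t + k) * ρ ^ ((t + k) * a)) * (D * ρ ^ (t * b)) * (CH * ρ ^ γ) := by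
        refine mul_le_mul (mul_le_mul h4 h1 (by positivity) (by positivity)) h3 (abs_nonneg _)
          (by positivity)
    _ = CA ^ (t + k) * D * CH * ρ ^ e := by
        have : ρ ^ e = ρ ^ ((t + k) * a) * ρ ^ (t * b) * ρ ^ γ := by
          rw [← Real.rpow_natCast ρ γ, ← Real.rpow_add hρ, ← Real.rpow_add hρ, he]
          congr 1; ring
        rw [this]; ring
    _ ≤ CA ^ (t + k) * D * CH * ∏ i, |x i| ^ q := by
        refine mul_le_mul_of_nonneg_left ?_ (by positivity)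
        exact rho_le w x ρ q e hρ hρ1 hx0 hxj hq0 hqe

/-- PACKAGE FIN -/
theorem p_fin : S_fin := by
  intro N w a b A B Ω hG
  obtain ⟨r, hr, hr1, hkey⟩ := key hG
  refine ⟨r, hr, ?_⟩
  intro H γ hH k t htk hlt
  obtain ⟨K, q, hq, hb⟩ := hkey H γ hH k t htk hlt
  have hS : MeasurableSet (Ω ∩ {x | ‖x‖ ≤ r}) :=
    hG.isOpen.measurableSet.inter (isClosed_le continuous_norm continuous_const).measurableSet
  have hmeas : Measurable (fun x : Fin N → ℝ =>
      |eval x A| ^ (t + k) * |eval x B| ^ t * eval x H) := by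
    have hm : ∀ f : MvPolynomial (Fin N) ℝ, Measurable fun x : Fin N → ℝ => eval x f := fun f =>
      (MvPolynomial.continuous_eval f).measurable
    have ha : ∀ f : MvPolynomial (Fin N) ℝ, Measurable fun x : Fin N → ℝ => |eval x f| := fun f =>
      (MvPolynomial.continuous_eval f).abs.measurable
    exact (((ha A).pow_const _).mul ((ha B).pow_const _)).mul (hm H)
  refine Integrable.mono' (((int_prod N q hq).const_mul K).integrableOn) hmeas.aestronglyMeasurable ?_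
  have hne : ∀ᵐ x : Fin N → ℝ, ∀ i, x i ≠ 0 := by
    rw [ae_all_iff]
    intro i
    have : (volume : Measure (Fin N → ℝ)) {x | x i = 0} = 0 :=
      Measure.pi_hyperplane _ i 0
    rw [ae_iff]
    simpa using this
  rw [ae_restrict_iff' hS]
  filter_upwards [hne] with x hx0 hxS
  refine (hb x hxS.1 hxS.2 hx0).trans (le_of_eq ?_)
  congr 1
  refine Finset.prod_congr rfl fun i _ => ?_
  rw [Set.indicator_of_mem]
  have h1 : ‖x i‖ ≤ r := (norm_le_pi_norm x i).trans hxS.2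
  rw [Real.norm_eq_abs, abs_le] at h1
  exact ⟨by linarith [h1.1], by linarith [h1.2]⟩

end Pool.Agent.Helper22.WM
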