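import Pool.Agent.Helper22.WM.Newt
import Pool.Agent.Helper16.WM.Asm

/-! # Facets of Newton polyhedra and eigenvalues, general form -/

set_option autoImplicit false

namespace Pool.Agent.Helper22.WM

open MvPolynomial MeasureTheory Filter Topology Pool.Agent.H628R4.TP Pool.Agent.Helper48.RC
  Pool.Agent.Helper16.WM

/-- the chamber `x_i > 0` for `i ∈ I` -/
def chI {N : ℕ} (I : Finset (Fin N)) : Set (Fin N → ℝ) := {x | ∀ i ∈ I, 0 < x i}

theorem isOpen_chI {N : ℕ} (I : Finset (Fin N)) : IsOpen (chI I) := by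
  have : chI I = ⋂ i ∈ I, {x : Fin N → ℝ | 0 < x i} := by
    ext x; simp [chI]
  rw [this]
  exact isOpen_biInter_finset fun i _ => isOpen_lt continuous_const (continuous_apply i)

/-- the integrals are finite -/
theorem fin4 {N : ℕ} (f : MvPolynomial (Fin N) ℝ) (I : Finset (Fin N)) {L : Type} [Fintype L]
    [Nonempty L] (v : L → Fin N → ℕ) (c r : ℝ) (hc : 0 < c) (hr1 : r ≤ 1)
    (hlow : ∀ l, ∀ x ∈ chI I, ‖x‖ ≤ r → c * ∏ i, |x i| ^ v l i ≤ eval x f)
    (lam : L → ℝ) (hl0 : ∀ l, 0 ≤ lam l) (hl1 : ∑ l, lam l = 1)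
    (m : Fin N → ℕ) (t : ℝ) (h : ∀ i, -t * ∑ l, lam l * (v l i : ℝ) < m i + 1) :
    IntegrableOn (fun x => (eval x f) ^ t * ∏ i, x i ^ m i) (chI I ∩ {x | ‖x‖ ≤ r}) := by
  have key : ∃ (K : ℝ) (q : Fin N → ℝ), (∀ i, -1 < q i) ∧ ∀ x ∈ chI I, ‖x‖ ≤ r →
      (∀ i, x i ≠ 0) → |(eval x f) ^ t * ∏ i, x i ^ m i| ≤ K * ∏ i, |x i| ^ q i := by
    rcases le_or_gt 0 t with ht | ht
    · refine ⟨(∑ v ∈ f.support, |f.coeff v|) ^ t, fun _ => 0, fun _ => by norm_num, ?_⟩
      intro x hx hxr hx0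
      have hfx : 0 ≤ eval x f := le_trans (mul_nonneg hc.le
        (Finset.prod_nonneg fun i _ => by positivity)) (hlow (Classical.arbitrary L) x hx hxr)
      have hx1 : ∀ i, |x i| ≤ 1 := fun i =>
        (Real.norm_eq_abs (x i) ▸ (norm_le_pi_norm x i).trans hxr).trans hr1
      have h1 : eval x f ≤ ∑ v ∈ f.support, |f.coeff v| := by
        refine (le_abs_self _).trans ?_
        have := eval_le (fun _ => 0) 0 f (fun _ _ => Nat.zero_le _) x 1 zero_le_one le_rfl
          (fun i => by rw [one_pow]; exact hx1 i)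
        simpa using this
      have h2 : |∏ i, x i ^ m i| ≤ 1 := by
        rw [Finset.abs_prod]
        refine Finset.prod_le_one (fun _ _ => abs_nonneg _) fun i _ => ?_
        rw [abs_pow]
        exact pow_le_one₀ (abs_nonneg _) (hx1 i)
      simp only [Real.rpow_zero, Finset.prod_const_one, mul_one]
      rw [abs_mul, abs_of_nonneg (Real.rpow_nonneg hfx _)]
      calc (eval x f) ^ t * |∏ i, x i ^ m i| ≤ (∑ v ∈ f.support, |f.coeff v|) ^ t * 1 :=
            mul_le_mul (Real.rpow_le_rpow hfx h1 ht) h2 (abs_nonneg _)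
              (by positivity)
        _ = _ := mul_one _
    · refine ⟨c ^ t, fun i => m i + t * ∑ l, lam l * (v l i : ℝ), fun i => ?_, ?_⟩
      · have := h i
        beta_reduce
        linarith
      intro x hx hxr hx0
      have hxi : ∀ i, 0 < |x i| := fun i => abs_pos.2 (hx0 i)
      have hfx : 0 < eval x f := lt_of_lt_of_le (mul_pos hc
        (Finset.prod_pos fun i _ => pow_pos (hxi i) _)) (hlow (Classical.arbitrary L) x hx hxr)
      have hmon : ∀ l, Real.log (∏ i, |x i| ^ v l i) =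
          ∑ i, (v l i : ℝ) * Real.log |x i| := by
        intro l
        rw [Real.log_prod (fun i _ => (pow_pos (hxi i) _).ne')]
        exact Finset.sum_congr rfl fun i _ => by rw [Real.log_pow]
      have h1 : ∀ l, Real.log c + ∑ i, (v l i : ℝ) * Real.log |x i| ≤ Real.log (eval x f) := by
        intro l
        have hp : 0 < ∏ i, |x i| ^ v l i := Finset.prod_pos fun i _ => pow_pos (hxi i) _
        rw [← hmon, ← Real.log_mul hc.ne' hp.ne']
        exact Real.log_le_log (mul_pos hc hp) (hlow l x hx hxr)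
      have h2 : Real.log c + ∑ i, (∑ l, lam l * (v l i : ℝ)) * Real.log |x i| ≤
          Real.log (eval x f) := by
        have h3 : ∑ l, lam l * (Real.log c + ∑ i, (v l i : ℝ) * Real.log |x i|) ≤
            ∑ l, lam l * Real.log (eval x f) :=
          Finset.sum_le_sum fun l _ => mul_le_mul_of_nonneg_left (h1 l) (hl0 l)
        rw [← Finset.sum_mul, hl1, one_mul] at h3
        refine le_trans (le_of_eq ?_) h3
        simp only [mul_add, Finset.sum_add_distrib, ← Finset.sum_mul, hl1, one_mul]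
        congr 1
        simp only [Finset.sum_mul, Finset.mul_sum]
        rw [Finset.sum_comm]
        exact Finset.sum_congr rfl fun v _ => Finset.sum_congr rfl fun i _ => by ring
      have h4 : (eval x f) ^ t ≤ Real.exp (t * (Real.log c +
          ∑ i, (∑ l, lam l * (v l i : ℝ)) * Real.log |x i|)) := by
        rw [Real.rpow_def_of_pos hfx, Real.exp_le_exp, mul_comm]
        exact mul_le_mul_of_nonpos_left h2 ht.le
      have h5 : 0 ≤ ∏ i, |x i| ^ m i := Finset.prod_nonneg fun i _ => pow_nonneg (hxi i).le _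
      rw [abs_mul, abs_of_nonneg (Real.rpow_nonneg hfx.le _), Finset.abs_prod]
      simp only [abs_pow]
      refine (mul_le_mul_of_nonneg_right h4 h5).trans (le_of_eq ?_)
      have h6 : ∏ i, |x i| ^ m i = Real.exp (∑ i, (m i : ℝ) * Real.log |x i|) := by
        rw [Real.exp_sum]
        refine Finset.prod_congr rfl fun i _ => ?_
        rw [← Real.rpow_natCast, Real.rpow_def_of_pos (hxi i), mul_comm]
      have h7 : ∏ i, |x i| ^ ((m i : ℝ) + t * ∑ l, lam l * (v l i : ℝ)) =
          Real.exp (∑ i, ((m i : ℝ) + t * ∑ l, lam l * (v l i : ℝ)) * Real.log |x i|) := by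
        rw [Real.exp_sum]
        refine Finset.prod_congr rfl fun i _ => ?_
        rw [Real.rpow_def_of_pos (hxi i), mul_comm]
      rw [h6, h7, Real.rpow_def_of_pos hc, ← Real.exp_add, ← Real.exp_add]
      congr 1
      simp only [mul_add, add_mul, Finset.sum_add_distrib, Finset.mul_sum, Finset.sum_mul]
      ring_nf
  obtain ⟨K, q, hq, hb⟩ := key
  have hS : MeasurableSet (chI I ∩ {x | ‖x‖ ≤ r}) :=
    (isOpen_chI I).measurableSet.inter (isClosed_le continuous_norm continuous_const).measurableSet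
  have hmeas : Measurable (fun x : Fin N → ℝ => (eval x f) ^ t * ∏ i, x i ^ m i) := by
    refine (((MvPolynomial.continuous_eval f).measurable).pow_const _).mul ?_
    exact (continuous_finsetProd _ fun i _ => (continuous_apply i).pow _).measurable
  refine Integrable.mono' (((int_prod' N q hq).const_mul K).integrableOn)
    hmeas.aestronglyMeasurable ?_
  have hne : ∀ᵐ x : Fin N → ℝ, ∀ i, x i ≠ 0 := by
    rw [ae_all_iff]
    intro i
    have : (volume : Measure (Fin N → ℝ)) {x | x i = 0} = 0 :=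
      Measure.pi_hyperplane _ i 0
    rw [ae_iff]
    simpa using this
  rw [ae_restrict_iff' hS]
  filter_upwards [hne] with x hx0 hxS
  refine (hb x hxS.1 hxS.2 hx0).trans (le_of_eq ?_)
  congr 1
  refine Finset.prod_congr rfl fun i _ => ?_
  rw [Set.indicator_of_mem]
  have h1 : ‖x i‖ ≤ r := (norm_le_pi_norm x i).trans hxS.2
  rw [Real.norm_eq_abs, abs_le] at h1
  exact ⟨by linarith [h1.1], by linarith [h1.2]⟩

/-- lattice points in the cone over a simplex -/
theorem pt2 {N : ℕ} [Nonempty (Fin N)] (w : Fin N → ℕ) (n0 : ℕ) (hn0 : 0 < n0)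
    (v : Fin N → Fin N → ℕ) (hv : ∀ l, ∑ i, w i * v l i = n0)
    (hli : LinearIndependent ℝ (fun l i => (v l i : ℝ))) (m0 : Fin N → ℕ) :
    ∃ (K : ℕ) (lam : Fin N → ℝ), (∀ l, 0 ≤ lam l) ∧ ∑ l, lam l = 1 ∧
      ∀ i, (((m0 i + 2 * K * ∑ l, v l i : ℕ) : ℝ) + 1) =
        (((∑ i, w i + ∑ i, w i * m0 i : ℕ) : ℝ) / n0 + ((2 * K * N : ℕ) : ℝ)) *
          ∑ l, lam l * (v l i : ℝ) := by
  classical
  set ν : ℕ := ∑ i, w i + ∑ i, w i * m0 i with hν
  have hn0' : (0 : ℝ) < n0 := by exact_mod_cast hn0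
  have hspan : Submodule.span ℝ (Set.range (fun l i => (v l i : ℝ))) = ⊤ :=
    hli.span_eq_top_of_card_eq_finrank' (by simp)
  obtain ⟨b, hb⟩ := (Submodule.mem_span_range_iff_exists_fun ℝ).1
    (hspan ▸ Submodule.mem_top : (fun i => (m0 i : ℝ) + 1) ∈
      Submodule.span ℝ (Set.range (fun l i => (v l i : ℝ))))
  have hb' : ∀ i, ∑ l, b l * (v l i : ℝ) = m0 i + 1 := by
    intro i
    have := congrFun hb i
    simpa [Finset.sum_apply] using this
  obtain ⟨K, hK⟩ := exists_nat_ge (∑ l, |b l| + 1)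
  have hbl : ∀ l, -∑ l, |b l| ≤ b l := by
    intro l
    have h1 : |b l| ≤ ∑ l, |b l| := Finset.single_le_sum (f := fun l => |b l|)
      (fun _ _ => abs_nonneg _) (Finset.mem_univ l)
    have h2 := neg_abs_le (b l)
    linarith
  have hK0 : (0 : ℝ) ≤ K := Nat.cast_nonneg K
  set c : Fin N → ℝ := fun l => b l + 2 * K with hc
  have hc1 : ∀ l, 1 ≤ c l := fun l => by
    have := hbl l
    rw [hc]
    beta_reduce
    linarith
  have hUc : ∀ i, (((m0 i + 2 * K * ∑ l, v l i : ℕ) : ℝ) + 1) = ∑ l, c l * (v l i : ℝ) := by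
    intro i
    rw [hc]
    push_cast
    simp only [add_mul, Finset.sum_add_distrib, hb' i, Finset.mul_sum]
    ring
  have hcs : n0 * ∑ l, c l = (ν : ℝ) + 2 * K * N * n0 := by
    have h2 : ∀ l, ∑ i, (w i : ℝ) * (v l i : ℝ) = n0 := fun l => by exact_mod_cast hv l
    calc (n0 : ℝ) * ∑ l, c l = ∑ l, c l * ∑ i, (w i : ℝ) * (v l i : ℝ) := by
          simp only [h2, Finset.mul_sum]
          exact Finset.sum_congr rfl fun l _ => mul_comm _ _
      _ = ∑ i, (w i : ℝ) * (((m0 i + 2 * K * ∑ l, v l i : ℕ) : ℝ) + 1) := by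
          have h3 : ∀ i, (w i : ℝ) * (((m0 i + 2 * K * ∑ l, v l i : ℕ) : ℝ) + 1) =
              ∑ l, c l * ((w i : ℝ) * (v l i : ℝ)) := fun i => by
            rw [hUc i, Finset.mul_sum]
            exact Finset.sum_congr rfl fun l _ => by ring
          rw [Finset.sum_congr rfl (fun i _ => h3 i), Finset.sum_comm]
          exact Finset.sum_congr rfl fun l _ => by rw [Finset.mul_sum]
      _ = (∑ i, (w i : ℝ) + ∑ i, (w i : ℝ) * m0 i) +
            2 * K * ∑ l, ∑ i, (w i : ℝ) * (v l i : ℝ) := by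
          push_cast
          simp only [mul_add, mul_one, Finset.sum_add_distrib, Finset.mul_sum]
          rw [Finset.sum_comm (f := fun l i => 2 * (K : ℝ) * ((w i : ℝ) * (v l i : ℝ)))]
          have : ∀ i, ∑ l, (w i : ℝ) * (2 * K * (v l i : ℝ)) =
              ∑ l, 2 * (K : ℝ) * ((w i : ℝ) * (v l i : ℝ)) := fun i =>
            Finset.sum_congr rfl fun l _ => by ring
          simp only [this]
          ring
      _ = _ := by
          simp only [h2, Finset.sum_const, Finset.card_univ, Fintype.card_fin, nsmul_eq_mul]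
          rw [hν]
          push_cast
          ring
  set κ : ℝ := ∑ l, c l with hκ
  have hκ0 : 0 < κ := by
    rw [hκ]
    exact Finset.sum_pos (fun l _ => by linarith [hc1 l]) Finset.univ_nonempty
  have hκe : κ = (ν : ℝ) / n0 + ((2 * K * N : ℕ) : ℝ) := by
    push_cast
    field_simp
    linarith
  refine ⟨K, fun l => c l / κ, fun l => ?_, ?_, fun i => ?_⟩
  · exact div_nonneg (by linarith [hc1 l]) hκ0.le
  · rw [← Finset.sum_div, ← hκ, div_self hκ0.ne']
  · rw [← hκe, hUc, Finset.mul_sum]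
    refine Finset.sum_congr rfl fun l _ => ?_
    field_simp

/-- **General form.** -/
theorem ngen_root (h1 : S_abs) {k : Type} [Field k] (ι : k →+* ℂ) (τ : k →+* ℝ) {N : ℕ}
    (hN : 0 < N) (f : MvPolynomial (Fin N) k) (I : Finset (Fin N)) (hX : ∀ i ∈ I, X i ∣ f)
    (w : Fin N → ℕ) (n0 : ℕ) (hn0 : 0 < n0)
    (hn : ∀ v ∈ f.support, n0 ≤ wt w v) (v : Fin N → Fin N → ℕ)
    (hv : ∀ l, ∑ i, w i * v l i = n0)
    (hli : LinearIndependent ℝ (fun l i => (v l i : ℝ)))
    (hlow : ∃ c r : ℝ, 0 < c ∧ 0 < r ∧ ∀ l, ∀ x : Fin N → ℝ, (∀ i ∈ I, 0 < x i) → ‖x‖ ≤ r →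
      c * ∏ i, |x i| ^ v l i ≤ eval x (map τ f))
    (b : Polynomial ℂ) (hb : IsBFunction (map ι f) b) (m0 : Fin N → ℕ)
    (hm0 : ∀ i, i ∉ I → Even (m0 i)) :
    ∃ z : ℤ, b.eval (-((∑ i, w i + ∑ i, w i * m0 i : ℕ) : ℂ) / (n0 : ℂ) + z) = 0 := by
  classical
  have hNe : Nonempty (Fin N) := ⟨⟨0, hN⟩⟩
  have hwpos : ∃ i, 0 < w i := by
    by_contra hcon
    push Not at hcon
    have : ∀ i, w i = 0 := fun i => Nat.le_zero.1 (hcon i)
    have h2 := hv hNe.some
    simp [this] at h2
    omega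
  obtain ⟨i0, hi0⟩ := hwpos
  obtain ⟨c, r', hc, hr', hlow⟩ := hlow
  obtain ⟨K, lam, hl0, hl1, hm⟩ := pt2 w n0 hn0 v hv hli m0
  set m : Fin N → ℕ := fun i => m0 i + 2 * K * ∑ l, v l i with hmdef
  set j : ℕ := 2 * K * N with hj
  set ν : ℕ := ∑ i, w i + ∑ i, w i * m0 i with hν
  have hn0' : (0 : ℝ) < n0 := by exact_mod_cast hn0
  have hmeven : ∀ i, i ∉ I → Even (m i) := fun i hi => by
    rw [hmdef]
    beta_reduce
    rw [mul_assoc]
    exact (hm0 i hi).add (even_two_mul _)
  -- the critical exponent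
  set κ0 : ℝ := (ν : ℝ) / n0 + (j : ℝ) with hκ0
  have hν1 : 1 ≤ ν := le_trans (le_trans hi0 (Finset.single_le_sum (f := w)
    (fun i _ => Nat.zero_le _) (Finset.mem_univ i0))) (Nat.le_add_right _ _)
  have hν1' : (1 : ℝ) ≤ ν := by exact_mod_cast hν1
  have hκ0pos : 0 < κ0 := by
    rw [hκ0]
    positivity
  obtain ⟨M, hM⟩ := exists_nat_ge κ0
  have hM0 : 0 < M := by
    have : (0 : ℝ) < M := lt_of_lt_of_le hκ0pos hM
    exact_mod_cast this
  have hM0' : (0 : ℝ) < M := by exact_mod_cast hM0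
  set κ : ℝ := κ0 / M with hκ
  have hκpos : 0 < κ := div_pos hκ0pos hM0'
  have hκ1 : κ ≤ 1 := (div_le_one hM0').2 hM
  have hMκ : (M : ℝ) * (-κ) = -κ0 := by
    rw [hκ]
    field_simp
  -- the real polynomial and the chamber
  set F : MvPolynomial (Fin N) ℝ := map τ f with hF
  set g : MvPolynomial (Fin N) ℝ := F ^ M with hg
  set Ω : Set (Fin N → ℝ) := chI I ∩ {x | 0 < eval x F} with hΩ
  have hΩo : IsOpen Ω := (isOpen_chI I).inter
    (isOpen_lt continuous_const (MvPolynomial.continuous_eval F))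
  have hgpos : ∀ x ∈ Ω, 0 < eval x g := by
    intro x hx
    rw [hg, map_pow]
    exact pow_pos hx.2 _
  have hgfr : ∀ x ∈ frontier Ω, eval x g = 0 := by
    intro x hx
    rw [hg, map_pow]
    suffices h : eval x F = 0 by rw [h, zero_pow hM0.ne']
    rw [hΩo.frontier_eq] at hx
    have hcl1 : ∀ i ∈ I, 0 ≤ x i := by
      intro i hi
      have h2 : closure Ω ⊆ {x | 0 ≤ x i} := by
        refine closure_minimal (fun y hy => (hy.1 i hi).le) ?_
        exact isClosed_le continuous_const (continuous_apply i)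
      exact h2 hx.1
    have hcl2 : 0 ≤ eval x F := by
      have h2 : closure Ω ⊆ {x | 0 ≤ eval x F} := by
        refine closure_minimal (fun y hy => (le_of_lt hy.2 : (0 : ℝ) ≤ eval y F)) ?_
        exact isClosed_le continuous_const (MvPolynomial.continuous_eval F)
      exact h2 hx.1
    by_cases hx0 : ∀ i ∈ I, 0 < x i
    · by_contra hne
      exact hx.2 ⟨hx0, lt_of_le_of_ne hcl2 (Ne.symm hne)⟩
    · push Not at hx0
      obtain ⟨i, hiI, hi⟩ := hx0
      have hxi : x i = 0 := le_antisymm hi (hcl1 i hiI)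
      obtain ⟨f', hf'⟩ := hX i hiI
      rw [hF, hf', map_mul, map_mul, map_X, eval_X, hxi, zero_mul]
  -- the test function
  set r : ℝ := min r' 1 with hr
  have hr0 : 0 < r := lt_min hr' one_pos
  have hr1 : r ≤ 1 := min_le_right _ _
  have hlow' : ∀ l, ∀ x ∈ chI I, ‖x‖ ≤ r → c * ∏ i, |x i| ^ v l i ≤ eval x F := fun l x hx hxr =>
    hlow l x hx (hxr.trans (min_le_left _ _))
  have horth : orth N ⊆ chI I := fun x hx i _ => hx i
  have hpos : ∀ x ∈ orth N, ‖x‖ ≤ r → 0 < eval x F := fun x hx hxr =>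
    lt_of_lt_of_le (mul_pos hc (Finset.prod_pos fun i _ => pow_pos (abs_pos.2 (hx i).ne') _))
      (hlow' hNe.some x (horth hx) hxr)
  set φ : ContDiffBump (0 : Fin N → ℝ) := ⟨r / 2, r, by positivity, by linarith⟩ with hφ
  have hφ0 : ∀ x : Fin N → ℝ, r < ‖x‖ → φ x = 0 := fun x hx =>
    φ.zero_of_le_dist (by rw [dist_zero_right]; exact hx.le)
  have hφ1 : ∀ x : Fin N → ℝ, ‖x‖ ≤ r / 2 → φ x = 1 := fun x hx =>
    φ.one_of_mem_closedBall (by rw [mem_closedBall_zero_iff]; exact hx)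
  have hφT : Test (φ : (Fin N → ℝ) → ℝ) := ⟨φ.contDiff, fun x hx => hφ0 x (by linarith)⟩
  set P : MvPolynomial (Fin N) ℝ := ∏ i, X i ^ m i with hP
  have hPe : ∀ x, eval x P = ∏ i, x i ^ m i := by
    intro x
    rw [hP, map_prod]
    exact Finset.prod_congr rfl fun i _ => by rw [map_pow, eval_X]
  set ψ : (Fin N → ℝ) → ℝ := fun x => ev P x * φ x with hψ
  have hψT : Test ψ := hφT.mul P
  have hψ0 : ∀ x ∈ Ω, 0 ≤ ψ x := by
    intro x hx
    rw [hψ]
    refine mul_nonneg ?_ φ.nonneg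
    rw [ev, hPe]
    refine Finset.prod_nonneg fun i _ => ?_
    by_cases hi : i ∈ I
    · exact pow_nonneg (hx.1 i hi).le _
    · exact (hmeven i hi).pow_nonneg _
  have hgt : ∀ t : ℝ, ∀ x ∈ Ω, (eval x g) ^ t * eval x P =
      (eval x F) ^ (M * t) * ∏ i, x i ^ m i := by
    intro t x hx
    have hx2 : 0 < eval x F := hx.2
    rw [hg, map_pow, ← Real.rpow_natCast, ← Real.rpow_mul hx2.le, hPe]
  have hp0 : ∀ i, 0 < ∑ l, lam l * (v l i : ℝ) := by
    intro i
    have h2 : 0 < ((m i : ℝ) + 1) := by positivity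
    rw [hmdef] at h2
    beta_reduce at h2
    rw [hm i] at h2
    exact (pos_iff_pos_of_mul_pos h2).1 hκ0pos
  have hint : ∀ t : ℝ, -κ < t → IntegrableOn (fun x => (eval x g) ^ t * ψ x) Ω := by
    intro t ht
    have ht' : -κ0 < M * t := by
      rw [← hMκ]
      exact mul_lt_mul_of_pos_left ht hM0'
    have h5 := fin4 F I v c r hc hr1 hlow' lam hl0 hl1 m (M * t) (by
      intro i
      rw [hmdef]
      beta_reduce
      rw [hm i]
      exact mul_lt_mul_of_pos_right (by linarith) (hp0 i))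
    have h6 : IntegrableOn (fun x => ((eval x F) ^ (M * t) * ∏ i, x i ^ m i) * φ x)
        (chI I ∩ {x | ‖x‖ ≤ r}) := by
      refine Integrable.mul_bdd (c := 1) h5 φ.continuous.aestronglyMeasurable ?_
      exact Eventually.of_forall fun x => by
        rw [Real.norm_eq_abs, abs_of_nonneg φ.nonneg]
        exact φ.le_one
    have h7 : IntegrableOn (fun x => ((eval x F) ^ (M * t) * ∏ i, x i ^ m i) * φ x)
        (Ω ∩ {x | ‖x‖ ≤ r}) :=
      h6.mono_set fun x hx => ⟨hx.1.1, hx.2⟩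
    have hms : MeasurableSet (Ω ∩ {x : Fin N → ℝ | ‖x‖ ≤ r}) :=
      hΩo.measurableSet.inter (measurableSet_le measurable_norm measurable_const)
    have h8 : IntegrableOn (fun x => (eval x g) ^ t * ψ x) (Ω ∩ {x | ‖x‖ ≤ r}) := by
      refine h7.congr_fun (fun x hx => ?_) hms
      change _ = (eval x g) ^ t * (eval x P * φ x)
      rw [← mul_assoc, hgt t x hx.1]
    refine h8.of_forall_sdiff_eq_zero hΩo.measurableSet fun x hx => ?_
    have h9 : r < ‖x‖ := by
      by_contra h10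
      exact hx.2 ⟨hx.1, not_lt.1 h10⟩
    simp only [hψ, hφ0 x h9, mul_zero]
  have htop : ∫⁻ x in Ω, ENNReal.ofReal ((eval x g) ^ (-κ) * ψ x) = ⊤ := by
    have h5 := inf2 F (r / 2) (by positivity) (fun x hx hxr => hpos x hx (by linarith)) w
      ⟨i0, hi0⟩ n0 (fun v hv => hn v (MvPolynomial.support_map_subset τ f hv)) m κ0 hκ0pos.le (by
        have h6 : ∑ i, w i * (m i + 1) = ν + j * n0 := by
          have h7 : ∑ i, w i * (2 * K * ∑ l, v l i) = 2 * K * N * n0 := by
            calc ∑ i, w i * (2 * K * ∑ l, v l i) = ∑ l, 2 * K * ∑ i, w i * v l i := by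
                  simp only [Finset.mul_sum]
                  rw [Finset.sum_comm]
                  exact Finset.sum_congr rfl fun l _ => Finset.sum_congr rfl fun i _ => by ring
              _ = _ := by
                  simp only [hv, Finset.sum_const, Finset.card_univ, Fintype.card_fin,
                    smul_eq_mul]
                  ring
          rw [hmdef]
          simp only [mul_add, mul_one, Finset.sum_add_distrib, h7]
          rw [hν, hj]
          ring
        rw [h6, hκ0]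
        push_cast
        field_simp)
    rw [eq_top_iff, ← h5]
    have hms : MeasurableSet (orth N ∩ {x : Fin N → ℝ | ‖x‖ ≤ r / 2}) :=
      (isOpen_orth N).measurableSet.inter (measurableSet_le measurable_norm measurable_const)
    have hsub : orth N ∩ {x : Fin N → ℝ | ‖x‖ ≤ r / 2} ⊆ Ω := fun x hx =>
      ⟨horth hx.1, hpos x hx.1 (le_trans hx.2 (by linarith))⟩
    refine le_trans (le_of_eq ?_) (lintegral_mono_set hsub)
    refine setLIntegral_congr_fun hms fun x hx => ?_
    change _ = ENNReal.ofReal ((eval x g) ^ (-κ) * (eval x P * φ x))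
    rw [hφ1 x hx.2, mul_one, hgt (-κ) x (hsub hx), hMκ]
  -- the functional equation
  by_contra hne
  push Not at hne
  set Q : Polynomial ℂ := ∏ l ∈ Finset.range M,
    b.comp (Polynomial.C (M : ℂ) * Polynomial.X + Polynomial.C (l : ℂ)) with hQ
  have hNF : NF (map ι (f ^ M)) Q := by
    rw [map_pow]
    exact pPow ℂ N _ b M (nf_of_isBFunction _ b hb)
  set qq : ℚ := -((ν : ℚ) / n0 + j) / M with hqq
  have hqqR : ((qq : ℚ) : ℝ) = -κ := by
    rw [hqq, hκ, hκ0]
    push_cast
    ring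
  have hqqC : (M : ℂ) * ((qq : ℚ) : ℂ) = -(ν : ℂ) / (n0 : ℂ) - j := by
    have hM1 : (M : ℂ) ≠ 0 := by exact_mod_cast hM0.ne'
    rw [hqq]
    push_cast
    field_simp
    ring
  have hQne : Q.eval ((qq : ℚ) : ℂ) ≠ 0 := by
    rw [hQ, Polynomial.eval_prod, Finset.prod_ne_zero_iff]
    intro l _
    rw [Polynomial.eval_comp, Polynomial.eval_add, Polynomial.eval_mul, Polynomial.eval_C,
      Polynomial.eval_X, Polynomial.eval_C, hqqC]
    have h5 := hne ((l : ℤ) - j)
    intro h6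
    apply h5
    rw [← h6]
    congr 1
    push_cast
    ring
  obtain ⟨b', hb', hb'q⟩ := nf_transfer ι τ (f ^ M) Q hNF qq hQne
  rw [hqqR] at hb'q
  apply hb'q
  refine h1 N g Ω ψ κ b' hΩo hgpos hgfr hψT hψ0 hκpos hκ1 hint htop ?_
  rw [hg, hF, ← map_pow]
  exact hb'

end Pool.Agent.Helper22.WM
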