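import Mathlib

/-! # Lattice points in cones over facets -/

set_option autoImplicit false

namespace Pool.Agent.Helper22.WM

open Finset

/-- `w` primitive, `v 0, ..., v (N-1)` linearly independent vectors with positive integral entries
on the hyperplane `⟨w, v⟩ = n0`: for every `e` there is a lattice point `m ≥ 0` with
`⟨w, m⟩ = e + j n0` such that `m + 1` is in `κ` times the simplex of the `v l`,
`κ = (ν + e) / n0 + j`. -/
theorem pt {N : ℕ} (w : Fin N → ℕ) (hw : ∃ u : Fin N → ℤ, ∑ i, (w i : ℤ) * u i = 1) (n0 : ℕ)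
    (hn0 : 0 < n0) (v : Fin N → Fin N → ℕ) (hv : ∀ l, ∑ i, w i * v l i = n0)
    (hv1 : ∀ l i, 1 ≤ v l i) (hli : LinearIndependent ℝ (fun l i => (v l i : ℝ)))
    (e : ℕ) : ∃ (j : ℕ) (m : Fin N → ℕ) (lam : Fin N → ℝ), (∀ l, 0 ≤ lam l) ∧ ∑ l, lam l = 1 ∧
      ∑ i, w i * m i = e + j * n0 ∧
      ∀ i, ((m i : ℝ) + 1) = ((((∑ i, w i : ℕ) : ℝ) + e) / n0 + j) * ∑ l, lam l * (v l i : ℝ) := by
  classical
  obtain ⟨u, hu⟩ := hw
  set ν : ℕ := ∑ i, w i with hν
  have hN : 0 < N := by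
    rcases Nat.eq_zero_or_pos N with h | h
    · subst h
      simp at hu
    · exact h
  have : Nonempty (Fin N) := ⟨⟨0, hN⟩⟩
  have hn0' : (0 : ℝ) < n0 := by exact_mod_cast hn0
  set u0 : Fin N → ℤ := fun i => ((ν + e : ℕ) : ℤ) * u i with hu0
  have hu0w : ∑ i, (w i : ℤ) * u0 i = ((ν + e : ℕ) : ℤ) := by
    calc ∑ i, (w i : ℤ) * u0 i = ((ν + e : ℕ) : ℤ) * ∑ i, (w i : ℤ) * u i := by
          rw [mul_sum]; exact sum_congr rfl fun i _ => by rw [hu0]; ring
      _ = _ := by rw [hu, mul_one]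
  have hspan : Submodule.span ℝ (Set.range (fun l i => (v l i : ℝ))) = ⊤ :=
    hli.span_eq_top_of_card_eq_finrank' (by simp)
  obtain ⟨b, hb⟩ := (Submodule.mem_span_range_iff_exists_fun ℝ).1
    (hspan ▸ Submodule.mem_top : (fun i => (u0 i : ℝ)) ∈
      Submodule.span ℝ (Set.range (fun l i => (v l i : ℝ))))
  have hb' : ∀ i, ∑ l, b l * (v l i : ℝ) = u0 i := by
    intro i
    have := congrFun hb i
    simpa [Finset.sum_apply] using this
  obtain ⟨K, hK⟩ := exists_nat_ge (∑ l, |b l| + 1)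
  have hbl : ∀ l, -∑ l, |b l| ≤ b l := by
    intro l
    have h1 : |b l| ≤ ∑ l, |b l| := single_le_sum (f := fun l => |b l|)
      (fun _ _ => abs_nonneg _) (mem_univ l)
    have h2 := neg_abs_le (b l)
    linarith
  set c : Fin N → ℝ := fun l => b l + K with hc
  have hc1 : ∀ l, 1 ≤ c l := fun l => by
    have := hbl l
    rw [hc]
    beta_reduce
    linarith
  set U : Fin N → ℤ := fun i => u0 i + K * ∑ l, (v l i : ℤ) with hU
  have hUc : ∀ i, (U i : ℝ) = ∑ l, c l * (v l i : ℝ) := by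
    intro i
    rw [hU, hc]
    push_cast
    simp only [add_mul, sum_add_distrib, hb' i, mul_sum]
  have hU1 : ∀ i, 1 ≤ U i := by
    intro i
    have h1 : (1 : ℝ) ≤ U i := by
      rw [hUc]
      obtain ⟨l0⟩ := this
      calc (1 : ℝ) ≤ c l0 * (v l0 i : ℝ) := by
            have h2 : (1 : ℝ) ≤ v l0 i := by exact_mod_cast hv1 l0 i
            nlinarith [hc1 l0]
        _ ≤ ∑ l, c l * (v l i : ℝ) := single_le_sum (f := fun l => c l * (v l i : ℝ))
            (fun l _ => mul_nonneg (by linarith [hc1 l]) (Nat.cast_nonneg _)) (mem_univ l0)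
    exact_mod_cast h1
  have hUw : ∑ i, (w i : ℤ) * U i = ((ν + e : ℕ) : ℤ) + K * N * n0 := by
    have h1 : ∑ i, (w i : ℤ) * U i = ∑ i, (w i : ℤ) * u0 i +
        K * ∑ l, ∑ i, (w i : ℤ) * (v l i : ℤ) := by
      rw [hU]
      simp only [mul_add, sum_add_distrib, mul_sum]
      congr 1
      rw [sum_comm]
      exact sum_congr rfl fun l _ => sum_congr rfl fun i _ => by ring
    have h2 : ∀ l, ∑ i, (w i : ℤ) * (v l i : ℤ) = n0 := fun l => by exact_mod_cast hv l
    rw [h1, hu0w]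
    simp only [h2, sum_const, card_univ, Fintype.card_fin, nsmul_eq_mul]
    ring
  have hcs : n0 * ∑ l, c l = (ν : ℝ) + e + K * N * n0 := by
    have h1 : ∑ i, (w i : ℝ) * (U i : ℝ) = (ν : ℝ) + e + K * N * n0 := by
      have := congrArg (fun z : ℤ => (z : ℝ)) hUw
      push_cast at this
      exact this
    rw [← h1]
    have h2 : ∀ l, ∑ i, (w i : ℝ) * (v l i : ℝ) = n0 := fun l => by exact_mod_cast hv l
    calc (n0 : ℝ) * ∑ l, c l = ∑ l, c l * ∑ i, (w i : ℝ) * (v l i : ℝ) := by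
          simp only [h2, mul_sum]
          exact sum_congr rfl fun l _ => mul_comm _ _
      _ = ∑ i, (w i : ℝ) * (U i : ℝ) := by
          simp only [hUc, mul_sum]
          rw [sum_comm]
          exact sum_congr rfl fun i _ => sum_congr rfl fun l _ => by ring
  set κ : ℝ := ∑ l, c l with hκ
  have hκ0 : 0 < κ := by
    rw [hκ]
    exact sum_pos (fun l _ => by linarith [hc1 l]) univ_nonempty
  have hκe : κ = ((ν : ℝ) + e) / n0 + ((K * N : ℕ) : ℝ) := by
    push_cast
    field_simp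
    linarith
  refine ⟨K * N, fun i => (U i - 1).toNat, fun l => c l / κ, fun l => ?_, ?_, ?_, fun i => ?_⟩
  · exact div_nonneg (by linarith [hc1 l]) hκ0.le
  · rw [← sum_div, ← hκ, div_self hκ0.ne']
  · have h1 : ∀ i, (((U i - 1).toNat : ℕ) : ℤ) = U i - 1 := fun i =>
      Int.toNat_of_nonneg (by linarith [hU1 i])
    have h2 : ((∑ i, w i * (U i - 1).toNat : ℕ) : ℤ) = ((e + K * N * n0 : ℕ) : ℤ) := by
      push_cast
      simp only [h1, mul_sub, mul_one, sum_sub_distrib, hUw]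
      rw [hν]
      push_cast
      ring
    exact_mod_cast h2
  · have h1 : (((U i - 1).toNat : ℕ) : ℝ) = (U i : ℝ) - 1 := by
      have : (((U i - 1).toNat : ℕ) : ℤ) = U i - 1 :=
        Int.toNat_of_nonneg (by linarith [hU1 i])
      have h3 := congrArg (fun z : ℤ => (z : ℝ)) this
      push_cast at h3
      exact h3
    rw [h1, ← hκe, hUc, mul_sum, sub_add_cancel]
    refine sum_congr rfl fun l _ => ?_
    field_simp

end Pool.Agent.Helper22.WM
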