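import Pool.Agent.Helper22.WM.Newt
import Pool.Agent.Helper22.WM.Pt
import Pool.Agent.Helper16.WM.Asm

/-! # Facets of Newton polyhedra and eigenvalues -/

set_option autoImplicit false

namespace Pool.Agent.Helper22.WM

open MvPolynomial MeasureTheory Filter Topology Pool.Agent.H628R4.TP Pool.Agent.Helper48.RC
  Pool.Agent.Helper16.WM

/-- the integrals are finite, indexed form -/
theorem fin3 {N : ℕ} (f : MvPolynomial (Fin N) ℝ) {L : Type} [Fintype L] (v : L → Fin N → ℕ)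
    (c r : ℝ) (hc : 0 < c) (hr1 : r ≤ 1) (hpos : ∀ x ∈ orth N, ‖x‖ ≤ r → 0 < eval x f)
    (hlow : ∀ l, ∀ x ∈ orth N, ‖x‖ ≤ r → c * ∏ i, x i ^ v l i ≤ eval x f)
    (lam : L → ℝ) (hl0 : ∀ l, 0 ≤ lam l) (hl1 : ∑ l, lam l = 1)
    (m : Fin N → ℕ) (t : ℝ) (h : ∀ i, -t * ∑ l, lam l * (v l i : ℝ) < m i + 1) :
    IntegrableOn (fun x => (eval x f) ^ t * ∏ i, x i ^ m i) (orth N ∩ {x | ‖x‖ ≤ r}) := by
  classical
  set V : L → (Fin N →₀ ℕ) := fun l => Finsupp.equivFunOnFinite.symm (v l) with hV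
  have hVv : ∀ l i, V l i = v l i := fun l i => rfl
  set lam' : (Fin N →₀ ℕ) → ℝ := fun u => ∑ l ∈ Finset.univ.filter (fun l => V l = u), lam l
    with hlam'
  have hmaps : ∀ l ∈ (Finset.univ : Finset L), V l ∈ Finset.univ.image V := fun l _ =>
    Finset.mem_image_of_mem _ (Finset.mem_univ l)
  refine fin2 f (Finset.univ.image V) c r hc hr1 hpos ?_ lam' ?_ ?_ m t ?_
  · intro u hu x hx hxr
    obtain ⟨l, -, rfl⟩ := Finset.mem_image.1 hu
    exact hlow l x hx hxr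
  · intro u _
    exact Finset.sum_nonneg fun l _ => hl0 l
  · rw [← hl1, hlam']
    exact Finset.sum_fiberwise_of_maps_to hmaps lam
  · intro i
    have h1 : ∑ u ∈ Finset.univ.image V, lam' u * (u i : ℝ) = ∑ l, lam l * (v l i : ℝ) := by
      rw [← Finset.sum_fiberwise_of_maps_to hmaps (fun l => lam l * (v l i : ℝ))]
      refine Finset.sum_congr rfl fun u _ => ?_
      rw [hlam', Finset.sum_mul]
      refine Finset.sum_congr rfl fun l hl => ?_
      rw [← (Finset.mem_filter.1 hl).2, hVv]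
    rw [h1]
    exact h i

theorem newt_root (h1 : S_abs) {k : Type} [Field k] (ι : k →+* ℂ) (τ : k →+* ℝ) {N : ℕ}
    (f : MvPolynomial (Fin N) k) (hX : ∀ i, X i ∣ f)
    (w : Fin N → ℕ) (hw : ∃ u : Fin N → ℤ, ∑ i, (w i : ℤ) * u i = 1) (n0 : ℕ)
    (hn : ∀ v ∈ f.support, n0 ≤ wt w v) (v : Fin N → Fin N → ℕ)
    (hv : ∀ l, ∑ i, w i * v l i = n0) (hv1 : ∀ l i, 1 ≤ v l i)
    (hli : LinearIndependent ℝ (fun l i => (v l i : ℝ)))
    (hlow : ∃ c r : ℝ, 0 < c ∧ 0 < r ∧ ∀ l, ∀ x : Fin N → ℝ, (∀ i, 0 < x i) → ‖x‖ ≤ r →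
      c * ∏ i, x i ^ v l i ≤ eval x (map τ f))
    (b : Polynomial ℂ) (hb : IsBFunction (map ι f) b) (e : ℕ) :
    ∃ z : ℤ, b.eval (-((∑ i, w i + e : ℕ) : ℂ) / (n0 : ℂ) + z) = 0 := by
  classical
  have hw' := hw
  obtain ⟨u, hu⟩ := hw'
  have hN : Nonempty (Fin N) := by
    rcases Nat.eq_zero_or_pos N with h | h
    · subst h
      simp at hu
    · exact ⟨⟨0, h⟩⟩
  have hwpos : ∃ i, 0 < w i := by
    by_contra hcon
    push Not at hcon
    have : ∀ i, w i = 0 := fun i => Nat.le_zero.1 (hcon i)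
    simp [this] at hu
  obtain ⟨i0, hi0⟩ := hwpos
  obtain ⟨l0⟩ := hN
  have hn0 : 0 < n0 := by
    rw [← hv l0]
    exact lt_of_lt_of_le (Nat.mul_pos hi0 (hv1 l0 i0))
      (Finset.single_le_sum (f := fun i => w i * v l0 i) (fun _ _ => Nat.zero_le _)
        (Finset.mem_univ i0))
  obtain ⟨c, r', hc, hr', hlow⟩ := hlow
  obtain ⟨j, m, lam, hl0, hl1, hmw, hm⟩ := pt w hw n0 hn0 v hv hv1 hli e
  set ν : ℕ := ∑ i, w i with hν
  have hn0' : (0 : ℝ) < n0 := by exact_mod_cast hn0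
  -- the critical exponent
  set κ0 : ℝ := ((ν : ℝ) + e) / n0 + j with hκ0
  have hν1 : 1 ≤ ν := le_trans hi0 (Finset.single_le_sum (f := w) (fun i _ => Nat.zero_le _)
    (Finset.mem_univ i0))
  have hν1' : (1 : ℝ) ≤ ν := by exact_mod_cast hν1
  have hκ0pos : 0 < κ0 := by
    rw [hκ0]
    have : (0 : ℝ) ≤ e := Nat.cast_nonneg e
    positivity
  obtain ⟨M, hM⟩ := exists_nat_ge κ0
  have hM0 : 0 < M := by
    have : (0 : ℝ) < M := lt_of_lt_of_le hκ0pos hM
    exact_mod_cast this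
  have hM0' : (0 : ℝ) < M := by exact_mod_cast hM0
  set κ : ℝ := κ0 / M with hκ
  have hκpos : 0 < κ := div_pos hκ0pos hM0'
  have hκ1 : κ ≤ 1 := (div_le_one hM0').2 hM
  have hMκ : (M : ℝ) * (-κ) = -κ0 := by
    rw [hκ]
    field_simp
  -- the real polynomial and the chamber
  set F : MvPolynomial (Fin N) ℝ := map τ f with hF
  set g : MvPolynomial (Fin N) ℝ := F ^ M with hg
  set Ω : Set (Fin N → ℝ) := orth N ∩ {x | 0 < eval x F} with hΩ
  have hΩo : IsOpen Ω := (isOpen_orth N).inter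
    (isOpen_lt continuous_const (MvPolynomial.continuous_eval F))
  have hgpos : ∀ x ∈ Ω, 0 < eval x g := by
    intro x hx
    rw [hg, map_pow]
    exact pow_pos hx.2 _
  have hgfr : ∀ x ∈ frontier Ω, eval x g = 0 := by
    intro x hx
    rw [hg, map_pow]
    suffices h : eval x F = 0 by rw [h, zero_pow hM0.ne']
    rw [hΩo.frontier_eq] at hx
    have hcl1 : ∀ i, 0 ≤ x i := by
      intro i
      have h2 : closure Ω ⊆ {x | 0 ≤ x i} := by
        refine closure_minimal (fun y hy => (hy.1 i).le) ?_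
        exact isClosed_le continuous_const (continuous_apply i)
      exact h2 hx.1
    have hcl2 : 0 ≤ eval x F := by
      have h2 : closure Ω ⊆ {x | 0 ≤ eval x F} := by
        refine closure_minimal (fun y hy => (le_of_lt hy.2 : (0 : ℝ) ≤ eval y F)) ?_
        exact isClosed_le continuous_const (MvPolynomial.continuous_eval F)
      exact h2 hx.1
    by_cases hx0 : ∀ i, 0 < x i
    · by_contra hne
      exact hx.2 ⟨hx0, lt_of_le_of_ne hcl2 (Ne.symm hne)⟩
    · push Not at hx0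
      obtain ⟨i, hi⟩ := hx0
      have hxi : x i = 0 := le_antisymm hi (hcl1 i)
      obtain ⟨f', hf'⟩ := hX i
      rw [hF, hf', map_mul, map_mul, map_X, eval_X, hxi, zero_mul]
  -- the test function
  set r : ℝ := min r' 1 with hr
  have hr0 : 0 < r := lt_min hr' one_pos
  have hr1 : r ≤ 1 := min_le_right _ _
  have hlow' : ∀ l, ∀ x ∈ orth N, ‖x‖ ≤ r → c * ∏ i, x i ^ v l i ≤ eval x F := fun l x hx hxr =>
    hlow l x hx (hxr.trans (min_le_left _ _))
  have hpos : ∀ x ∈ orth N, ‖x‖ ≤ r → 0 < eval x F := fun x hx hxr =>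
    lt_of_lt_of_le (mul_pos hc (Finset.prod_pos fun i _ => pow_pos (hx i) _)) (hlow' l0 x hx hxr)
  set φ : ContDiffBump (0 : Fin N → ℝ) := ⟨r / 2, r, by positivity, by linarith⟩ with hφ
  have hφ0 : ∀ x : Fin N → ℝ, r < ‖x‖ → φ x = 0 := fun x hx =>
    φ.zero_of_le_dist (by rw [dist_zero_right]; exact hx.le)
  have hφ1 : ∀ x : Fin N → ℝ, ‖x‖ ≤ r / 2 → φ x = 1 := fun x hx =>
    φ.one_of_mem_closedBall (by rw [mem_closedBall_zero_iff]; exact hx)
  have hφT : Test (φ : (Fin N → ℝ) → ℝ) := ⟨φ.contDiff, fun x hx => hφ0 x (by linarith)⟩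
  set P : MvPolynomial (Fin N) ℝ := ∏ i, X i ^ m i with hP
  have hPe : ∀ x, eval x P = ∏ i, x i ^ m i := by
    intro x
    rw [hP, map_prod]
    exact Finset.prod_congr rfl fun i _ => by rw [map_pow, eval_X]
  set ψ : (Fin N → ℝ) → ℝ := fun x => ev P x * φ x with hψ
  have hψT : Test ψ := hφT.mul P
  have hψ0 : ∀ x ∈ Ω, 0 ≤ ψ x := by
    intro x hx
    rw [hψ]
    refine mul_nonneg ?_ φ.nonneg
    rw [ev, hPe]
    exact Finset.prod_nonneg fun i _ => pow_nonneg (hx.1 i).le _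
  have hgt : ∀ t : ℝ, ∀ x ∈ Ω, (eval x g) ^ t * eval x P =
      (eval x F) ^ (M * t) * ∏ i, x i ^ m i := by
    intro t x hx
    have hx2 : 0 < eval x F := hx.2
    rw [hg, map_pow, ← Real.rpow_natCast, ← Real.rpow_mul hx2.le, hPe]
  have hp0 : ∀ i, 0 < ∑ l, lam l * (v l i : ℝ) := by
    intro i
    have h2 : 0 < ((m i : ℝ) + 1) := by positivity
    rw [hm i] at h2
    exact (pos_iff_pos_of_mul_pos h2).1 hκ0pos
  have hint : ∀ t : ℝ, -κ < t → IntegrableOn (fun x => (eval x g) ^ t * ψ x) Ω := by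
    intro t ht
    have ht' : -κ0 < M * t := by
      rw [← hMκ]
      exact mul_lt_mul_of_pos_left ht hM0'
    have h5 := fin3 F v c r hc hr1 hpos hlow' lam hl0 hl1 m (M * t) (by
      intro i
      rw [hm i]
      exact mul_lt_mul_of_pos_right (by linarith) (hp0 i))
    have hms : MeasurableSet (orth N ∩ {x : Fin N → ℝ | ‖x‖ ≤ r}) :=
      (isOpen_orth N).measurableSet.inter (measurableSet_le measurable_norm measurable_const)
    have h6 : IntegrableOn (fun x => ((eval x F) ^ (M * t) * ∏ i, x i ^ m i) * φ x)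
        (orth N ∩ {x | ‖x‖ ≤ r}) := by
      refine Integrable.mul_bdd (c := 1) h5 φ.continuous.aestronglyMeasurable ?_
      exact Eventually.of_forall fun x => by
        rw [Real.norm_eq_abs, abs_of_nonneg φ.nonneg]
        exact φ.le_one
    have h7 : IntegrableOn (fun x => (eval x g) ^ t * ψ x) (orth N ∩ {x | ‖x‖ ≤ r}) := by
      refine h6.congr_fun (fun x hx => ?_) hms
      change _ = (eval x g) ^ t * (eval x P * φ x)
      rw [← mul_assoc, hgt t x ⟨hx.1, hpos x hx.1 hx.2⟩]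
    have h8 : IntegrableOn (fun x => (eval x g) ^ t * ψ x) (Ω ∩ {x | ‖x‖ ≤ r}) :=
      h7.mono_set fun x hx => ⟨hx.1.1, hx.2⟩
    refine h8.of_forall_sdiff_eq_zero hΩo.measurableSet fun x hx => ?_
    have h9 : r < ‖x‖ := by
      by_contra h10
      exact hx.2 ⟨hx.1, not_lt.1 h10⟩
    simp only [hψ, hφ0 x h9, mul_zero]
  have htop : ∫⁻ x in Ω, ENNReal.ofReal ((eval x g) ^ (-κ) * ψ x) = ⊤ := by
    have h5 := inf2 F (r / 2) (by positivity) (fun x hx hxr => hpos x hx (by linarith)) w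
      ⟨i0, hi0⟩ n0 (fun v hv => hn v (MvPolynomial.support_map_subset τ f hv)) m κ0 hκ0pos.le (by
        have h6 : ∑ i, w i * (m i + 1) = ν + e + j * n0 := by
          simp only [mul_add, mul_one, Finset.sum_add_distrib, hmw]
          rw [hν]
          ring
        rw [h6, hκ0]
        push_cast
        field_simp)
    rw [eq_top_iff, ← h5]
    have hms : MeasurableSet (orth N ∩ {x : Fin N → ℝ | ‖x‖ ≤ r / 2}) :=
      (isOpen_orth N).measurableSet.inter (measurableSet_le measurable_norm measurable_const)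
    have hsub : orth N ∩ {x : Fin N → ℝ | ‖x‖ ≤ r / 2} ⊆ Ω := fun x hx =>
      ⟨hx.1, hpos x hx.1 (le_trans hx.2 (by linarith))⟩
    refine le_trans (le_of_eq ?_) (lintegral_mono_set hsub)
    refine setLIntegral_congr_fun hms fun x hx => ?_
    change _ = ENNReal.ofReal ((eval x g) ^ (-κ) * (eval x P * φ x))
    rw [hφ1 x hx.2, mul_one, hgt (-κ) x (hsub hx), hMκ]
  -- the functional equation
  by_contra hne
  push Not at hne
  set Q : Polynomial ℂ := ∏ l ∈ Finset.range M,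
    b.comp (Polynomial.C (M : ℂ) * Polynomial.X + Polynomial.C (l : ℂ)) with hQ
  have hNF : NF (map ι (f ^ M)) Q := by
    rw [map_pow]
    exact pPow ℂ N _ b M (nf_of_isBFunction _ b hb)
  set qq : ℚ := -(((ν : ℚ) + e) / n0 + j) / M with hqq
  have hqqR : ((qq : ℚ) : ℝ) = -κ := by
    rw [hqq, hκ, hκ0]
    push_cast
    ring
  have hqqC : (M : ℂ) * ((qq : ℚ) : ℂ) = -((ν + e : ℕ) : ℂ) / (n0 : ℂ) - j := by
    have hM1 : (M : ℂ) ≠ 0 := by exact_mod_cast hM0.ne'
    rw [hqq]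
    push_cast
    field_simp
    ring
  have hQne : Q.eval ((qq : ℚ) : ℂ) ≠ 0 := by
    rw [hQ, Polynomial.eval_prod, Finset.prod_ne_zero_iff]
    intro l _
    rw [Polynomial.eval_comp, Polynomial.eval_add, Polynomial.eval_mul, Polynomial.eval_C,
      Polynomial.eval_X, Polynomial.eval_C, hqqC]
    have h5 := hne ((l : ℤ) - j)
    intro h6
    apply h5
    rw [← h6]
    congr 1
    push_cast
    ring
  obtain ⟨b', hb', hb'q⟩ := nf_transfer ι τ (f ^ M) Q hNF qq hQne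
  rw [hqqR] at hb'q
  apply hb'q
  refine h1 N g Ω ψ κ b' hΩo hgpos hgfr hψT hψ0 hκpos hκ1 hint htop ?_
  rw [hg, hF, ← map_pow]
  exact hb'

/-- the lower bound for nonnegative coefficients -/
theorem low_of_nonneg {N : ℕ} (F : MvPolynomial (Fin N) ℝ) (hF : ∀ u, 0 ≤ coeff u F)
    (v : Fin N → (Fin N →₀ ℕ)) (hv : ∀ l, v l ∈ F.support) :
    ∃ c r : ℝ, 0 < c ∧ 0 < r ∧ ∀ l, ∀ x : Fin N → ℝ, (∀ i, 0 < x i) → ‖x‖ ≤ r →
      c * ∏ i, x i ^ v l i ≤ eval x F := by
  classical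
  have hpos : ∀ l, 0 < coeff (v l) F := fun l =>
    lt_of_le_of_ne (hF _) (Ne.symm (mem_support_iff.1 (hv l)))
  obtain ⟨c, hc, hcl⟩ : ∃ c : ℝ, 0 < c ∧ ∀ l, c ≤ coeff (v l) F := by
    rcases isEmpty_or_nonempty (Fin N) with h | h
    · exact ⟨1, one_pos, fun l => (h.false l).elim⟩
    · obtain ⟨l0, hl0⟩ := Finite.exists_min fun l => coeff (v l) F
      exact ⟨coeff (v l0) F, hpos l0, hl0⟩
  refine ⟨c, 1, hc, one_pos, fun l x hx _ => ?_⟩
  rw [eval_eq']
  have h1 : coeff (v l) F * ∏ i, x i ^ v l i ≤ ∑ d ∈ F.support, coeff d F * ∏ i, x i ^ d i :=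
    Finset.single_le_sum (f := fun d => coeff d F * ∏ i, x i ^ d i)
      (fun d _ => mul_nonneg (hF d) (Finset.prod_nonneg fun i _ => pow_nonneg (hx i).le _)) (hv l)
  exact (mul_le_mul_of_nonneg_right (hcl l)
    (Finset.prod_nonneg fun i _ => pow_nonneg (hx i).le _)).trans h1

/-- **Facets of Newton polyhedra of polynomials with nonnegative coefficients.** -/
theorem newt_nonneg (h1 : S_abs) {k : Type} [Field k] (ι : k →+* ℂ) (τ : k →+* ℝ) {N : ℕ}
    (f : MvPolynomial (Fin N) k) (hX : ∀ i, X i ∣ f) (hF : ∀ u, 0 ≤ τ (coeff u f))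
    (w : Fin N → ℕ) (hw : ∃ u : Fin N → ℤ, ∑ i, (w i : ℤ) * u i = 1) (n0 : ℕ)
    (hn : ∀ v ∈ f.support, n0 ≤ wt w v) (v : Fin N → (Fin N →₀ ℕ)) (hvs : ∀ l, v l ∈ f.support)
    (hv : ∀ l, wt w (v l) = n0) (hli : LinearIndependent ℝ (fun l i => (v l i : ℝ)))
    (b : Polynomial ℂ) (hb : IsBFunction (map ι f) b) (e : ℕ) :
    ∃ z : ℤ, b.eval (-((∑ i, w i + e : ℕ) : ℂ) / (n0 : ℂ) + z) = 0 := by
  refine newt_root h1 ι τ f hX w hw n0 hn (fun l i => v l i) hv ?_ hli ?_ b hb e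
  · intro l i
    obtain ⟨f', hf'⟩ := hX i
    have h2 := mem_support_iff.1 (hvs l)
    by_contra hcon
    have h3 : v l i = 0 := by omega
    apply h2
    rw [hf', mul_comm, coeff_mul_X', if_neg]
    rw [Finsupp.mem_support_iff, not_not]
    exact h3
  · refine low_of_nonneg (map τ f) (fun u => by rw [coeff_map]; exact hF u) v fun l => ?_
    rw [mem_support_iff, coeff_map]
    intro h2
    exact mem_support_iff.1 (hvs l) ((map_eq_zero τ).1 h2)

end Pool.Agent.Helper22.WM
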