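import Pool.Agent.Helper22.WM.Fin
import Pool.Agent.Helper16.WM.Scl

/-! # Integrals over the positive orthant and Newton polyhedra -/

set_option autoImplicit false

namespace Pool.Agent.Helper22.WM

open MvPolynomial MeasureTheory Filter Topology Pool.Agent.Helper16.WM Set

/-- the open positive orthant -/
def orth (N : ℕ) : Set (Fin N → ℝ) := {x | ∀ i, 0 < x i}

theorem isOpen_orth (N : ℕ) : IsOpen (orth N) := by
  have : orth N = ⋂ i, {x | 0 < x i} := by
    ext x; simp [orth]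
  rw [this]
  exact isOpen_iInter_of_finite fun i => isOpen_lt continuous_const (continuous_apply i)

theorem int_prod' (N : ℕ) (q : Fin N → ℝ) (hq : ∀ i, -1 < q i) :
    Integrable (fun x : Fin N → ℝ =>
      ∏ i, (Icc (-1 : ℝ) 1).indicator (fun s => |s| ^ q i) (x i)) :=
  Integrable.fintype_prod (f := fun i : Fin N => (Icc (-1 : ℝ) 1).indicator (fun s => |s| ^ q i))
    (fun i => int_one (q i) (hq i))

/-- the integrals are finite if a convex combination `p` of the exponents satisfies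
`-t p_i < m_i + 1` -/
theorem fin2 {N : ℕ} (f : MvPolynomial (Fin N) ℝ) (T : Finset (Fin N →₀ ℕ)) (c r : ℝ) (hc : 0 < c)
    (hr1 : r ≤ 1) (hpos : ∀ x ∈ orth N, ‖x‖ ≤ r → 0 < eval x f)
    (hlow : ∀ v ∈ T, ∀ x ∈ orth N, ‖x‖ ≤ r → c * ∏ i, x i ^ v i ≤ eval x f)
    (lam : (Fin N →₀ ℕ) → ℝ) (hl0 : ∀ v ∈ T, 0 ≤ lam v) (hl1 : ∑ v ∈ T, lam v = 1)
    (m : Fin N → ℕ) (t : ℝ) (h : ∀ i, -t * ∑ v ∈ T, lam v * (v i : ℝ) < m i + 1) :
    IntegrableOn (fun x => (eval x f) ^ t * ∏ i, x i ^ m i) (orth N ∩ {x | ‖x‖ ≤ r}) := by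
  have key : ∃ (K : ℝ) (q : Fin N → ℝ), (∀ i, -1 < q i) ∧ ∀ x ∈ orth N, ‖x‖ ≤ r →
      |(eval x f) ^ t * ∏ i, x i ^ m i| ≤ K * ∏ i, |x i| ^ q i := by
    rcases le_or_gt 0 t with ht | ht
    · refine ⟨(∑ v ∈ f.support, |f.coeff v|) ^ t, fun _ => 0, fun _ => by norm_num, ?_⟩
      intro x hx hxr
      have hx1 : ∀ i, |x i| ≤ 1 := fun i =>
        (Real.norm_eq_abs (x i) ▸ (norm_le_pi_norm x i).trans hxr).trans hr1
      have h1 : eval x f ≤ ∑ v ∈ f.support, |f.coeff v| := by
        refine (le_abs_self _).trans ?_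
        have := eval_le (fun _ => 0) 0 f (fun _ _ => Nat.zero_le _) x 1 zero_le_one le_rfl
          (fun i => by rw [one_pow]; exact hx1 i)
        simpa using this
      have h2 : |∏ i, x i ^ m i| ≤ 1 := by
        rw [Finset.abs_prod]
        refine Finset.prod_le_one (fun _ _ => abs_nonneg _) fun i _ => ?_
        rw [abs_pow]
        exact pow_le_one₀ (abs_nonneg _) (hx1 i)
      simp only [Real.rpow_zero, Finset.prod_const_one, mul_one]
      rw [abs_mul, abs_of_nonneg (Real.rpow_nonneg (hpos x hx hxr).le _)]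
      calc (eval x f) ^ t * |∏ i, x i ^ m i| ≤ (∑ v ∈ f.support, |f.coeff v|) ^ t * 1 :=
            mul_le_mul (Real.rpow_le_rpow (hpos x hx hxr).le h1 ht) h2 (abs_nonneg _)
              (by positivity)
        _ = _ := mul_one _
    · refine ⟨c ^ t, fun i => m i + t * ∑ v ∈ T, lam v * (v i : ℝ), fun i => ?_, ?_⟩
      · have := h i
        beta_reduce
        linarith
      intro x hx hxr
      have hfx := hpos x hx hxr
      have hxi : ∀ i, 0 < x i := hx
      have hmon : ∀ v : Fin N →₀ ℕ, Real.log (∏ i, x i ^ v i) = ∑ i, (v i : ℝ) * Real.log (x i) := by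
        intro v
        rw [Real.log_prod (fun i _ => (pow_pos (hxi i) _).ne')]
        exact Finset.sum_congr rfl fun i _ => by rw [Real.log_pow]
      have h1 : ∀ v ∈ T, Real.log c + ∑ i, (v i : ℝ) * Real.log (x i) ≤ Real.log (eval x f) := by
        intro v hv
        have hp : 0 < ∏ i, x i ^ v i := Finset.prod_pos fun i _ => pow_pos (hxi i) _
        rw [← hmon, ← Real.log_mul hc.ne' hp.ne']
        exact Real.log_le_log (mul_pos hc hp) (hlow v hv x hx hxr)
      have h2 : Real.log c + ∑ i, (∑ v ∈ T, lam v * (v i : ℝ)) * Real.log (x i) ≤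
          Real.log (eval x f) := by
        have h3 : ∑ v ∈ T, lam v * (Real.log c + ∑ i, (v i : ℝ) * Real.log (x i)) ≤
            ∑ v ∈ T, lam v * Real.log (eval x f) :=
          Finset.sum_le_sum fun v hv => mul_le_mul_of_nonneg_left (h1 v hv) (hl0 v hv)
        rw [← Finset.sum_mul, hl1, one_mul] at h3
        refine le_trans (le_of_eq ?_) h3
        simp only [mul_add, Finset.sum_add_distrib, ← Finset.sum_mul, hl1, one_mul]
        congr 1
        simp only [Finset.sum_mul, Finset.mul_sum]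
        rw [Finset.sum_comm]
        exact Finset.sum_congr rfl fun v _ => Finset.sum_congr rfl fun i _ => by ring
      have h4 : (eval x f) ^ t ≤ Real.exp (t * (Real.log c +
          ∑ i, (∑ v ∈ T, lam v * (v i : ℝ)) * Real.log (x i))) := by
        rw [Real.rpow_def_of_pos hfx, Real.exp_le_exp, mul_comm]
        exact mul_le_mul_of_nonpos_left h2 ht.le
      have h5 : 0 ≤ ∏ i, x i ^ m i := Finset.prod_nonneg fun i _ => pow_nonneg (hxi i).le _
      rw [abs_of_nonneg (mul_nonneg (Real.rpow_nonneg hfx.le _) h5)]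
      refine (mul_le_mul_of_nonneg_right h4 h5).trans (le_of_eq ?_)
      have h6 : ∏ i, x i ^ m i = Real.exp (∑ i, (m i : ℝ) * Real.log (x i)) := by
        rw [Real.exp_sum]
        refine Finset.prod_congr rfl fun i _ => ?_
        rw [← Real.rpow_natCast, Real.rpow_def_of_pos (hxi i), mul_comm]
      have h7 : ∏ i, |x i| ^ ((m i : ℝ) + t * ∑ v ∈ T, lam v * (v i : ℝ)) =
          Real.exp (∑ i, ((m i : ℝ) + t * ∑ v ∈ T, lam v * (v i : ℝ)) * Real.log (x i)) := by
        rw [Real.exp_sum]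
        refine Finset.prod_congr rfl fun i _ => ?_
        rw [abs_of_pos (hxi i), Real.rpow_def_of_pos (hxi i), mul_comm]
      rw [h6, h7, Real.rpow_def_of_pos hc, ← Real.exp_add, ← Real.exp_add]
      congr 1
      simp only [mul_add, add_mul, Finset.sum_add_distrib, Finset.mul_sum, Finset.sum_mul]
      ring_nf
  obtain ⟨K, q, hq, hb⟩ := key
  have hS : MeasurableSet (orth N ∩ {x | ‖x‖ ≤ r}) :=
    (isOpen_orth N).measurableSet.inter (isClosed_le continuous_norm continuous_const).measurableSet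
  have hmeas : Measurable (fun x : Fin N → ℝ => (eval x f) ^ t * ∏ i, x i ^ m i) := by
    refine (((MvPolynomial.continuous_eval f).measurable).pow_const _).mul ?_
    exact (continuous_finsetProd _ fun i _ => (continuous_apply i).pow _).measurable
  refine Integrable.mono' (((int_prod' N q hq).const_mul K).integrableOn)
    hmeas.aestronglyMeasurable ?_
  rw [ae_restrict_iff' hS]
  refine Eventually.of_forall fun x hxS => (hb x hxS.1 hxS.2).trans (le_of_eq ?_)
  congr 1
  refine Finset.prod_congr rfl fun i _ => ?_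
  rw [Set.indicator_of_mem]
  have h1 : ‖x i‖ ≤ r := (norm_le_pi_norm x i).trans hxS.2
  rw [Real.norm_eq_abs, abs_le] at h1
  exact ⟨by linarith [h1.1], by linarith [h1.2]⟩

open Pool.Agent.Helper16.WM.SclN in
/-- the critical integral is infinite -/
theorem inf2 {N : ℕ} (f : MvPolynomial (Fin N) ℝ) (r : ℝ) (hr : 0 < r)
    (hpos : ∀ x ∈ orth N, ‖x‖ ≤ r → 0 < eval x f) (w : Fin N → ℕ) (hw : ∃ i, 0 < w i) (n0 : ℕ)
    (hn : ∀ v ∈ f.support, n0 ≤ wt w v) (m : Fin N → ℕ) (κ : ℝ) (hκ : 0 ≤ κ)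
    (hcrit : ((∑ i, w i * (m i + 1) : ℕ) : ℝ) = κ * n0) :
    ∫⁻ x in orth N ∩ {x | ‖x‖ ≤ r}, ENNReal.ofReal ((eval x f) ^ (-κ) * ∏ i, x i ^ m i) = ⊤ := by
  classical
  obtain ⟨i0, hi0⟩ := hw
  set ρ : ℝ := min r 1 with hρ
  have hρ0 : 0 < ρ := lt_min hr one_pos
  have hρr : ρ ≤ r := min_le_left _ _
  have hρ1 : ρ ≤ 1 := min_le_right _ _
  set V : Set (Fin N → ℝ) := Set.pi univ fun _ => Ioo (ρ / 2) ρ with hV
  have hVo : IsOpen V := isOpen_set_pi finite_univ fun _ _ => isOpen_Ioo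
  have hVn : V.Nonempty := ⟨fun _ => 3 / 4 * ρ, fun i _ => ⟨by linarith, by linarith⟩⟩
  have hVm : ∀ y ∈ V, ∀ i, ρ / 2 < y i ∧ y i < ρ := fun y hy i => hy i (mem_univ i)
  set sc : ℕ → ℝ := fun n => (1 / 2 : ℝ) ^ n with hsc
  have hsc0 : ∀ n, 0 < sc n := fun n => by positivity
  have hsc1 : ∀ n, sc n ≤ 1 := fun n => pow_le_one₀ (by norm_num) (by norm_num)
  set D : ℕ → Set (Fin N → ℝ) := fun n => {x | scl w (sc n)⁻¹ x ∈ V} with hD
  have hDo : ∀ n, IsOpen (D n) := fun n => hVo.preimage (continuous_scl w _)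
  have hDx : ∀ n, ∀ x ∈ D n, ∃ y ∈ V, x = scl w (sc n) y := by
    intro n x hx
    refine ⟨scl w (sc n)⁻¹ x, hx, ?_⟩
    rw [scl_scl, mul_inv_cancel₀ (hsc0 n).ne', scl_one]
  have hDsub : ∀ n, D n ⊆ orth N ∩ {x | ‖x‖ ≤ r} := by
    intro n x hx
    obtain ⟨y, hy, rfl⟩ := hDx n x hx
    have hy' := hVm y hy
    refine ⟨fun i => mul_pos (pow_pos (hsc0 n) _) (by linarith [(hy' i).1]), ?_⟩
    change ‖scl w (sc n) y‖ ≤ r
    rw [pi_norm_le_iff_of_nonneg hr.le]
    intro i
    rw [scl, Real.norm_eq_abs, abs_mul, abs_of_pos (pow_pos (hsc0 n) _),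
      abs_of_pos (by linarith [(hy' i).1])]
    calc sc n ^ w i * y i ≤ 1 * r :=
          mul_le_mul (pow_le_one₀ (hsc0 n).le (hsc1 n)) (by linarith [(hy' i).2])
            (by linarith [(hy' i).1]) zero_le_one
      _ = r := one_mul r
  have hDdisj : Pairwise (Function.onFun Disjoint D) := by
    have h3 : ∀ i j : ℕ, i < j → Disjoint (D i) (D j) := by
      intro a b hab
      rw [Set.disjoint_left]
      intro x hx hx'
      obtain ⟨y, hy, hxy⟩ := hDx a x hx
      obtain ⟨y', hy', hxy'⟩ := hDx b x hx'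
      have h5 := hVm y hy i0
      have h6 := hVm y' hy' i0
      have h7 : sc a ^ w i0 * y i0 = sc b ^ w i0 * y' i0 := by
        have h8 := congrFun (hxy.symm.trans hxy') i0
        rwa [scl, scl] at h8
      have h10 : sc b ^ w i0 ≤ sc a ^ w i0 * (1 / 2) := by
        have h11 : sc b ≤ sc a * (1 / 2) := by
          rw [hsc]
          change (1 / 2 : ℝ) ^ b ≤ (1 / 2 : ℝ) ^ a * (1 / 2)
          rw [← pow_succ]
          exact pow_le_pow_of_le_one (by norm_num) (by norm_num) (by omega)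
        calc sc b ^ w i0 ≤ (sc a * (1 / 2)) ^ w i0 := pow_le_pow_left₀ (hsc0 b).le h11 _
          _ = sc a ^ w i0 * (1 / 2) ^ w i0 := mul_pow _ _ _
          _ ≤ sc a ^ w i0 * (1 / 2) ^ 1 := by
            refine mul_le_mul_of_nonneg_left ?_ (pow_pos (hsc0 a) _).le
            exact pow_le_pow_of_le_one (by norm_num) (by norm_num) hi0
          _ = sc a ^ w i0 * (1 / 2) := by rw [pow_one]
      have h11 := pow_pos (hsc0 a) (w i0)
      have h12 : sc b ^ w i0 * y' i0 ≤ sc a ^ w i0 * (1 / 2) * y' i0 :=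
        mul_le_mul_of_nonneg_right h10 (by linarith)
      have h13 : sc a ^ w i0 * (1 / 2) * y' i0 < sc a ^ w i0 * (1 / 2) * ρ :=
        mul_lt_mul_of_pos_left h6.2 (by positivity)
      have h14 : sc a ^ w i0 * (ρ / 2) < sc a ^ w i0 * y i0 := mul_lt_mul_of_pos_left h5.1 h11
      linarith
    intro i j hij
    rcases lt_or_gt_of_ne hij with h | h
    · exact h3 i j h
    · exact (h3 j i h).symm
  -- the bounds
  set C : ℝ := ∑ v ∈ f.support, |coeff v f| with hC
  have hFF : ∀ n, ∀ y ∈ V, FF w n0 f (sc n) y ≤ C := by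
    intro n y hy
    rw [FF, hC]
    refine Finset.sum_le_sum fun v _ => ?_
    have hy' := hVm y hy
    refine (le_abs_self _).trans ?_
    rw [abs_mul, abs_mul, mul_assoc]
    refine mul_le_of_le_one_right (abs_nonneg _) ?_
    refine mul_le_one₀ ?_ (abs_nonneg _) ?_
    · rw [abs_of_pos (pow_pos (hsc0 n) _)]
      exact pow_le_one₀ (hsc0 n).le (hsc1 n)
    · rw [Finset.abs_prod]
      refine Finset.prod_le_one (fun _ _ => abs_nonneg _) fun i _ => ?_
      rw [abs_pow, abs_of_pos (by linarith [(hy' i).1])]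
      exact pow_le_one₀ (by linarith [(hy' i).1]) (by linarith [(hy' i).2])
  have hC0 : 0 < C := by
    obtain ⟨y, hy⟩ := hVn
    have h1 : y ∈ D 0 := by
      change scl w (sc 0)⁻¹ y ∈ V
      have : (sc 0)⁻¹ = 1 := by rw [hsc]; norm_num
      rw [this, scl_one]; exact hy
    have h2 := hDsub 0 h1
    have h3 := hpos y h2.1 h2.2
    have h4 : scl w (sc 0) y = y := by
      have : sc 0 = 1 := by rw [hsc]; norm_num
      rw [this, scl_one]
    rw [← h4, eval_scl w n0 f hn] at h3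
    have h5 := (pos_iff_pos_of_mul_pos h3).1 (pow_pos (hsc0 0) _)
    exact h5.trans_le (hFF 0 y hy)
  set c : ℝ := C ^ (-κ) * ∏ i, (ρ / 2) ^ m i with hc
  have hc0 : 0 < c := mul_pos (Real.rpow_pos_of_pos hC0 _)
    (Finset.prod_pos fun i _ => pow_pos (by linarith) _)
  have hlow : ∀ n, ENNReal.ofReal c * volume V ≤ ∫⁻ x in D n,
      ENNReal.ofReal ((eval x f) ^ (-κ) * ∏ i, x i ^ m i) := by
    intro n
    have hs := hsc0 n
    have h1 : ∀ x ∈ D n, c * sc n ^ (-((∑ i, w i : ℕ) : ℝ)) ≤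
        (eval x f) ^ (-κ) * ∏ i, x i ^ m i := by
      intro x hx
      have hxΩ := hDsub n hx
      have hfx := hpos x hxΩ.1 hxΩ.2
      obtain ⟨y, hy, rfl⟩ := hDx n x hx
      have hy' := hVm y hy
      have i1 : (sc n ^ (n0 : ℝ) * C) ^ (-κ) ≤ (eval (scl w (sc n) y) f) ^ (-κ) := by
        refine Real.rpow_le_rpow_of_nonpos hfx ?_ (by linarith)
        rw [eval_scl w n0 f hn, Real.rpow_natCast]
        exact mul_le_mul_of_nonneg_left (hFF n y hy) (pow_nonneg hs.le _)
      have i2 : sc n ^ (((∑ i, w i * m i : ℕ)) : ℝ) * ∏ i, (ρ / 2) ^ m i ≤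
          ∏ i, scl w (sc n) y i ^ m i := by
        rw [Real.rpow_natCast, ← Finset.prod_pow_eq_pow_sum, ← Finset.prod_mul_distrib]
        refine Finset.prod_le_prod (fun i _ => by positivity) fun i _ => ?_
        rw [scl, mul_pow, pow_mul (sc n) (w i) (m i)]
        exact mul_le_mul_of_nonneg_left
          (pow_le_pow_left₀ (by linarith) (hy' i).1.le _) (pow_nonneg (pow_nonneg hs.le _) _)
      have e1 : c * sc n ^ (-((∑ i, w i : ℕ) : ℝ)) =
          (sc n ^ (n0 : ℝ) * C) ^ (-κ) *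
            (sc n ^ (((∑ i, w i * m i : ℕ)) : ℝ) * ∏ i, (ρ / 2) ^ m i) := by
        rw [Real.mul_rpow (Real.rpow_nonneg hs.le _) hC0.le, ← Real.rpow_mul hs.le, hc]
        have h2 : -((∑ i, w i : ℕ) : ℝ) = (n0 : ℝ) * -κ + ((∑ i, w i * m i : ℕ) : ℝ) := by
          have h3 : ((∑ i, w i * (m i + 1) : ℕ) : ℝ) =
              ((∑ i, w i * m i : ℕ) : ℝ) + ((∑ i, w i : ℕ) : ℝ) := by
            rw [← Nat.cast_add, ← Finset.sum_add_distrib]
            rfl
          rw [h3] at hcrit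
          linarith
        rw [h2, Real.rpow_add hs]
        ring
      rw [e1]
      exact mul_le_mul i1 i2 (by positivity) (Real.rpow_nonneg hfx.le _)
    calc ENNReal.ofReal c * volume V =
        ∫⁻ _ in D n, ENNReal.ofReal (c * sc n ^ (-((∑ i, w i : ℕ) : ℝ))) := by
          rw [setLIntegral_const, hD, measure_scl w hs, ← mul_assoc, ← ENNReal.ofReal_mul
            (by positivity), Real.rpow_neg hs.le, Real.rpow_natCast, mul_assoc,
            inv_mul_cancel₀ (pow_pos hs _).ne', mul_one]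
      _ ≤ _ := by
          refine setLIntegral_mono' (hDo n).measurableSet fun x hx => ?_
          exact ENNReal.ofReal_le_ofReal (h1 x hx)
  have hUsub : (⋃ n, D n) ⊆ orth N ∩ {x | ‖x‖ ≤ r} := Set.iUnion_subset hDsub
  rw [eq_top_iff]
  refine le_trans ?_ (lintegral_mono_set hUsub)
  rw [lintegral_iUnion (fun n => (hDo n).measurableSet) hDdisj]
  have hne : ENNReal.ofReal c * volume V ≠ 0 := by
    refine mul_ne_zero ?_ ?_
    · rw [Ne, ENNReal.ofReal_eq_zero, not_le]
      exact hc0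
    · exact (hVo.measure_pos volume hVn).ne'
  calc (⊤ : ENNReal) = ∑' _ : ℕ, ENNReal.ofReal c * volume V :=
        (ENNReal.tsum_const_eq_top_of_ne_zero hne).symm
    _ ≤ _ := ENNReal.tsum_le_tsum hlow

end Pool.Agent.Helper22.WM
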